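import Mathlib

/-!
The Sidon defect `M(n) - s(n)` of the set of the multinomial coefficients with upper entry `n`
has the order of magnitude `M(n)`, the number of these coefficients.

Proof.  Two facts.
* `M(n) ≤ M(n-1) + M(n-2)`, hence `M(n) ≤ 32 M(n-5)`.
* For every partition `λ` of `n - 5` the three coefficients of the partitions `λ,3,2`, `λ,3,1,1`
  and `λ,2,2,1` are `10 T, 20 T, 30 T`, a three term arithmetic progression, so that every
  Sidon set misses one of the three.
-/

set_option autoImplicit false

namespace Pool.Agent.Results.MP_0896da_co.SidonDefectOrder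

open Filter Asymptotics

/-- The set `𝓜_n` of the distinct values `n! / (p₁! ⋯ p_t!)` of the multinomial coefficients, where
`p₁, …, p_t` runs through the partitions of `n` (coinciding values are counted once). -/
def multinomialValues (n : ℕ) : Finset ℕ :=
  (Finset.univ : Finset (Nat.Partition n)).image
    fun p => Nat.factorial n / (p.parts.map Nat.factorial).prod

/-- `M(n)`, the number of elements of `𝓜_n`. -/
def M (n : ℕ) : ℕ := (multinomialValues n).card

/-- A set of numbers is a Sidon set if `x + y = u + v` with `x, y, u, v` in the set forces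
`{x, y} = {u, v}` (equal summands allowed). -/
def IsSidon (S : Finset ℕ) : Prop :=
  ∀ x ∈ S, ∀ y ∈ S, ∀ u ∈ S, ∀ v ∈ S, x + y = u + v → (x = u ∧ y = v) ∨ (x = v ∧ y = u)

open Classical in
/-- `s(n)`, the largest number of elements of a Sidon set contained in `𝓜_n`. -/
noncomputable def s (n : ℕ) : ℕ :=
  ((multinomialValues n).powerset.filter IsSidon).sup Finset.card

/-- the products `p₁! ⋯ p_t!` -/
def denoms (n : ℕ) : Finset ℕ :=
  (Finset.univ : Finset (Nat.Partition n)).image fun p => (p.parts.map Nat.factorial).prod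

lemma prod_dvd (m : Multiset ℕ) : (m.map Nat.factorial).prod ∣ Nat.factorial m.sum := by
  induction m using Multiset.induction with
  | empty => simp
  | cons a m ih =>
    rw [Multiset.map_cons, Multiset.prod_cons, Multiset.sum_cons]
    exact (Nat.mul_dvd_mul_left _ ih).trans (Nat.factorial_mul_factorial_dvd_factorial_add _ _)

/-- a description of the products by multisets of positive integers -/
lemma mem_denoms {n D : ℕ} :
    D ∈ denoms n ↔ ∃ m : Multiset ℕ, (∀ x ∈ m, 0 < x) ∧ m.sum = n ∧
      (m.map Nat.factorial).prod = D := by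
  constructor
  · intro h
    obtain ⟨p, -, hp⟩ := Finset.mem_image.1 h
    exact ⟨p.parts, fun x hx => p.parts_pos hx, p.parts_sum, hp⟩
  · rintro ⟨m, h0, h1, h2⟩
    exact Finset.mem_image.2 ⟨⟨m, fun {x} hx => h0 x hx, h1⟩, Finset.mem_univ _, h2⟩

lemma denoms_dvd {n D : ℕ} (h : D ∈ denoms n) : D ∣ Nat.factorial n := by
  obtain ⟨m, -, h1, rfl⟩ := mem_denoms.1 h
  rw [← h1]
  exact prod_dvd m

lemma denoms_pos {n D : ℕ} (h : D ∈ denoms n) : 0 < D :=
  Nat.pos_of_dvd_of_pos (denoms_dvd h) (Nat.factorial_pos n)

/-- adding a part -/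
lemma denoms_add {n D a : ℕ} (ha : 0 < a) (h : D ∈ denoms n) :
    Nat.factorial a * D ∈ denoms (n + a) := by
  obtain ⟨m, h0, h1, rfl⟩ := mem_denoms.1 h
  refine mem_denoms.2 ⟨a ::ₘ m, ?_, ?_, ?_⟩
  · intro x hx
    rcases Multiset.mem_cons.1 hx with rfl | hx
    · exact ha
    · exact h0 x hx
  · rw [Multiset.sum_cons, h1, add_comm]
  · rw [Multiset.map_cons, Multiset.prod_cons]

lemma denoms_succ {n : ℕ} : denoms n ⊆ denoms (n + 1) := by
  intro D h
  have := denoms_add (a := 1) one_pos h
  simpa using this

lemma denoms_mono : Monotone denoms :=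
  monotone_nat_of_le_succ fun _ => denoms_succ

/-- removing a part -/
lemma denoms_part {n D : ℕ} (h : D ∈ denoms (n + 1)) :
    ∃ a D' : ℕ, 0 < a ∧ a ≤ n + 1 ∧ D' ∈ denoms (n + 1 - a) ∧ D = Nat.factorial a * D' := by
  obtain ⟨m, h0, h1, rfl⟩ := mem_denoms.1 h
  have hne : m ≠ 0 := by
    rintro rfl
    simp at h1
  obtain ⟨a, ha⟩ := Multiset.exists_mem_of_ne_zero hne
  obtain ⟨m', rfl⟩ := Multiset.exists_cons_of_mem ha
  rw [Multiset.sum_cons] at h1
  refine ⟨a, (m'.map Nat.factorial).prod, h0 a ha, by omega, ?_, ?_⟩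
  · exact mem_denoms.2 ⟨m', fun x hx => h0 x (Multiset.mem_cons_of_mem hx), by omega, rfl⟩
  · rw [Multiset.map_cons, Multiset.prod_cons]

lemma card_eq (n : ℕ) : M n = (denoms n).card := by
  have h : multinomialValues n = (denoms n).image fun D => Nat.factorial n / D := by
    rw [multinomialValues, denoms, Finset.image_image]
    rfl
  rw [M, h, Finset.card_image_of_injOn]
  intro D hD D' hD' h'
  have h1 := denoms_dvd hD
  have h2 := denoms_dvd hD'
  simp only at h'
  calc D = Nat.factorial n / (Nat.factorial n / D) :=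
        (Nat.div_div_self h1 (Nat.factorial_ne_zero n)).symm
    _ = Nat.factorial n / (Nat.factorial n / D') := by rw [h']
    _ = D' := Nat.div_div_self h2 (Nat.factorial_ne_zero n)

/-- `M(n+2) ≤ M(n+1) + M(n)` for the products -/
lemma card_rec (n : ℕ) : (denoms (n + 2)).card ≤ (denoms (n + 1)).card + (denoms n).card := by
  classical
  -- the least `m` with `D ∈ denoms m`, for `D ∈ denoms n`
  let κ : ℕ → ℕ := fun D => sInf {m | D ∈ denoms m}
  have hκ : ∀ {D m : ℕ}, D ∈ denoms m → D ∈ denoms (κ D) ∧ κ D ≤ m := by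
    intro D m h
    exact ⟨Nat.sInf_mem (s := {m | D ∈ denoms m}) ⟨m, h⟩, Nat.sInf_le h⟩
  have hsub : denoms (n + 2) ⊆ denoms (n + 1) ∪
      (denoms n).image fun D => Nat.factorial (n + 2 - κ D) * D := by
    intro D hD
    by_cases h : D ∈ denoms (n + 1)
    · exact Finset.mem_union_left _ h
    refine Finset.mem_union_right _ ?_
    obtain ⟨a, D', ha, han, hD', rfl⟩ := denoms_part hD
    have ha2 : 2 ≤ a := by
      by_contra hlt
      have ha1 : a = 1 := by omega
      subst ha1
      apply h
      simpa using hD'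
    obtain ⟨h1, h2⟩ := hκ hD'
    have h3 : κ D' = n + 1 + 1 - a := by
      by_contra hne
      apply h
      have h4 : D' ∈ denoms (n + 1 - a) := denoms_mono (by omega) h1
      have h5 := denoms_add ha h4
      rwa [show n + 1 - a + a = n + 1 by omega] at h5
    refine Finset.mem_image.2 ⟨D', denoms_mono (by omega) h1, ?_⟩
    have h6 : n + 2 - κ D' = a := by omega
    simp only [h6]
  calc (denoms (n + 2)).card ≤ _ := Finset.card_le_card hsub
    _ ≤ _ := Finset.card_union_le _ _
    _ ≤ _ := Nat.add_le_add_left Finset.card_image_le _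

lemma card_double (n : ℕ) : (denoms (n + 1)).card ≤ 2 * (denoms n).card := by
  cases n with
  | zero =>
    have hsub : denoms (0 + 1) ⊆ denoms 0 := by
      intro D hD
      obtain ⟨a, D', ha, han, hD', rfl⟩ := denoms_part hD
      have ha1 : a = 1 := by omega
      subst ha1
      simpa using hD'
    have := Finset.card_le_card hsub
    omega
  | succ n =>
    have h1 : (denoms (n + 1 + 1)).card ≤ (denoms (n + 1)).card + (denoms n).card := card_rec n
    have h2 := Finset.card_le_card (denoms_succ (n := n))
    omega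

lemma card_five (n : ℕ) : (denoms (n + 5)).card ≤ 32 * (denoms n).card := by
  have h1 := card_double n
  have h2 : (denoms (n + 2)).card ≤ _ := card_double (n + 1)
  have h3 : (denoms (n + 3)).card ≤ _ := card_double (n + 2)
  have h4 : (denoms (n + 4)).card ≤ _ := card_double (n + 3)
  have h5 : (denoms (n + 5)).card ≤ _ := card_double (n + 4)
  omega

/-- a Sidon set misses one of three elements in arithmetic progression, for each element of
`denoms n` -/
lemma miss (n : ℕ) (S : Finset ℕ) (hS : IsSidon S) :
    (denoms n).card ≤ 3 * (multinomialValues (n + 5) \ S).card := by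
  classical
  have hval : ∀ {D : ℕ}, D ∈ denoms (n + 5) →
      Nat.factorial (n + 5) / D ∈ multinomialValues (n + 5) := by
    intro D h
    obtain ⟨p, -, hp⟩ := Finset.mem_image.1 h
    exact Finset.mem_image.2 ⟨p, Finset.mem_univ _, by rw [hp]⟩
  let h : ℕ → ℕ → ℕ := fun c v => Nat.factorial (n + 5) / v / c
  have hsub : denoms n ⊆ ((multinomialValues (n + 5) \ S).image (h 12) ∪
      (multinomialValues (n + 5) \ S).image (h 6)) ∪
      (multinomialValues (n + 5) \ S).image (h 4) := by
    intro D hD
    have m1 : 12 * D ∈ denoms (n + 5) := by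
      have := denoms_add (a := 2) (by norm_num) (denoms_add (a := 3) (by norm_num) hD)
      have e : Nat.factorial 2 * (Nat.factorial 3 * D) = 12 * D := by
        simp [Nat.factorial]; ring
      rw [e] at this
      exact this
    have m2 : 6 * D ∈ denoms (n + 5) := by
      have := denoms_succ (denoms_succ (denoms_add (a := 3) (by norm_num) hD))
      have e : Nat.factorial 3 * D = 6 * D := by simp [Nat.factorial]
      rw [e] at this
      exact this
    have m3 : 4 * D ∈ denoms (n + 5) := by
      have := denoms_succ (denoms_add (a := 2) (by norm_num)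
        (denoms_add (a := 2) (by norm_num) hD))
      have e : Nat.factorial 2 * (Nat.factorial 2 * D) = 4 * D := by
        simp [Nat.factorial]; ring
      rw [e] at this
      exact this
    have d1 := denoms_dvd m1
    have d2 := denoms_dvd m2
    have d3 := denoms_dvd m3
    have hback : ∀ c : ℕ, 0 < c → c * D ∣ Nat.factorial (n + 5) →
        h c (Nat.factorial (n + 5) / (c * D)) = D := by
      intro c hc hcD
      simp only [h]
      rw [Nat.div_div_self hcD (Nat.factorial_ne_zero _), Nat.mul_div_cancel_left _ hc]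
    by_contra hcon
    simp only [Finset.mem_union, Finset.mem_image, Finset.mem_sdiff, not_or, not_exists,
      not_and, and_imp] at hcon
    obtain ⟨⟨k1, k2⟩, k3⟩ := hcon
    have s1 : Nat.factorial (n + 5) / (12 * D) ∈ S := by
      by_contra hn
      exact k1 _ (hval m1) hn (hback 12 (by norm_num) d1)
    have s2 : Nat.factorial (n + 5) / (6 * D) ∈ S := by
      by_contra hn
      exact k2 _ (hval m2) hn (hback 6 (by norm_num) d2)
    have s3 : Nat.factorial (n + 5) / (4 * D) ∈ S := by
      by_contra hn
      exact k3 _ (hval m3) hn (hback 4 (by norm_num) d3)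
    have hDpos := denoms_pos hD
    obtain ⟨t, ht⟩ := d1
    have e1 : Nat.factorial (n + 5) / (12 * D) = t := by
      rw [ht]; exact Nat.mul_div_cancel_left _ (by positivity)
    have e2 : Nat.factorial (n + 5) / (6 * D) = 2 * t := by
      rw [ht, show 12 * D * t = 6 * D * (2 * t) by ring]
      exact Nat.mul_div_cancel_left _ (by positivity)
    have e3 : Nat.factorial (n + 5) / (4 * D) = 3 * t := by
      rw [ht, show 12 * D * t = 4 * D * (3 * t) by ring]
      exact Nat.mul_div_cancel_left _ (by positivity)
    have ht0 : 0 < t := by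
      rcases Nat.eq_zero_or_pos t with rfl | h0
      · exact absurd ht (by rw [mul_zero]; exact Nat.factorial_ne_zero _)
      · exact h0
    rw [e1] at s1
    rw [e2] at s2
    rw [e3] at s3
    rcases hS t s1 (3 * t) s3 (2 * t) s2 (2 * t) s2 (by ring) with ⟨h1, -⟩ | ⟨h1, -⟩ <;> omega
  have c1 := Finset.card_le_card hsub
  have c2 := Finset.card_union_le ((multinomialValues (n + 5) \ S).image (h 12) ∪
      (multinomialValues (n + 5) \ S).image (h 6)) ((multinomialValues (n + 5) \ S).image (h 4))
  have c3 := Finset.card_union_le ((multinomialValues (n + 5) \ S).image (h 12))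
      ((multinomialValues (n + 5) \ S).image (h 6))
  have c4 := Finset.card_image_le (s := multinomialValues (n + 5) \ S) (f := h 12)
  have c5 := Finset.card_image_le (s := multinomialValues (n + 5) \ S) (f := h 6)
  have c6 := Finset.card_image_le (s := multinomialValues (n + 5) \ S) (f := h 4)
  omega

/-- the maximum in the definition of `s(n)` is attained -/
lemma exists_sidon (n : ℕ) : ∃ S ⊆ multinomialValues n, IsSidon S ∧ S.card = s n := by
  classical
  have hne : ((multinomialValues n).powerset.filter IsSidon).Nonempty :=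
    ⟨∅, by simp [IsSidon]⟩
  obtain ⟨S, hS, h⟩ := Finset.exists_mem_eq_sup _ hne Finset.card
  rw [Finset.mem_filter, Finset.mem_powerset] at hS
  exact ⟨S, hS.1, hS.2, h.symm⟩

lemma main_bound (n : ℕ) : M (n + 5) + 96 * s (n + 5) ≤ 96 * M (n + 5) := by
  obtain ⟨S, hS1, hS2, hS3⟩ := exists_sidon (n + 5)
  have h1 := miss n S hS2
  have h2 := card_five n
  have h3 : (multinomialValues (n + 5) \ S).card + S.card = M (n + 5) :=
    Finset.card_sdiff_add_card_eq_card hS1
  have h4 := card_eq (n + 5)
  rw [hS3] at h3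
  omega

/-- The order of magnitude of the Sidon defect `M(n) - s(n)` of the set of multinomial
coefficients is `M(n)`: one has `M(n) / 96 ≤ M(n) - s(n) ≤ M(n)` for all `n ≥ 5`; in particular
`M(n) - s(n) = Θ(M(n))` as `n → ∞`. -/
theorem result :
    (∀ n : ℕ, 5 ≤ n → (M n : ℝ) / 96 ≤ (M n : ℝ) - s n ∧ (M n : ℝ) - s n ≤ M n) ∧
    (fun n : ℕ => (M n : ℝ) - s n) =Θ[atTop] fun n : ℕ => (M n : ℝ) := by
  have key : ∀ n : ℕ, 5 ≤ n → (M n : ℝ) / 96 ≤ (M n : ℝ) - s n ∧ (M n : ℝ) - s n ≤ M n := by
    intro n hn
    obtain ⟨m, rfl⟩ : ∃ m, n = m + 5 := ⟨n - 5, by omega⟩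
    have h : ((M (m + 5) + 96 * s (m + 5) : ℕ) : ℝ) ≤ ((96 * M (m + 5) : ℕ) : ℝ) := by
      exact_mod_cast main_bound m
    push_cast at h
    have h0 : (0 : ℝ) ≤ s (m + 5) := Nat.cast_nonneg _
    constructor <;> linarith
  refine ⟨key, ?_, ?_⟩
  · refine IsBigO.of_bound 1 ?_
    filter_upwards [eventually_ge_atTop 5] with n hn
    obtain ⟨h1, h2⟩ := key n hn
    have h0 : (0 : ℝ) ≤ M n := Nat.cast_nonneg _
    rw [Real.norm_eq_abs, Real.norm_eq_abs, abs_of_nonneg h0, abs_of_nonneg (by linarith)]
    linarith
  · refine IsBigO.of_bound 96 ?_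
    filter_upwards [eventually_ge_atTop 5] with n hn
    obtain ⟨h1, h2⟩ := key n hn
    have h0 : (0 : ℝ) ≤ M n := Nat.cast_nonneg _
    rw [Real.norm_eq_abs, Real.norm_eq_abs, abs_of_nonneg h0, abs_of_nonneg (by linarith)]
    linarith

end Pool.Agent.Results.MP_0896da_co.SidonDefectOrder
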